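import Mathlib

namespace Pool.Agent.Results.MP_628ecd_an.Exists

open Metric Filter Topology Set
open scoped ENNReal

/-- `T` is bounded below on no closed infinite-dimensional subspace. -/
def StrictlySingular {E : Type} [NormedAddCommGroup E] [NormedSpace ℂ E] (T : E →L[ℂ] E) : Prop :=
  ¬ ∃ (M : Submodule ℂ E) (c : ℝ), IsClosed (M : Set E) ∧ ¬ FiniteDimensional ℂ M ∧ 0 < c ∧
    ∀ x ∈ M, c * ‖x‖ ≤ ‖T x‖

noncomputable abbrev L1 := lp (fun _ : ℕ => ℂ) 1
noncomputable abbrev LI := lp (fun _ : ℕ => ℂ) ∞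
noncomputable abbrev E := L1 × LI

lemma hs1 (x : L1) : HasSum (fun i => ‖x i‖) ‖x‖ := by
  simpa using lp.hasSum_norm (p := 1) (by simp) x

lemma n1 (x : L1) (i : ℕ) : ‖x i‖ ≤ ‖x‖ := lp.norm_apply_le_norm (by simp) x i
lemma nI (x : LI) (i : ℕ) : ‖x i‖ ≤ ‖x‖ := lp.norm_apply_le_norm (by simp) x i

lemma h2 (k : ℕ) : ‖((1 / 2 : ℂ)) ^ k‖ = (1 / 2) ^ k := by simp
lemma h2' (k : ℕ) : ((1 / 2 : ℝ)) ^ k ≤ 1 := pow_le_one₀ (by norm_num) (by norm_num)

lemma b1 (e : E) (k : ℕ) : ‖(1 / 2 : ℂ) ^ (2 * k + 1) * e.1 k‖ ≤ ‖e.1 k‖ := by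
  rw [norm_mul, h2]; exact mul_le_of_le_one_left (norm_nonneg _) (h2' _)

lemma b2 (e : E) (k j : ℕ) : ‖e.1 k + (1 / 2 : ℂ) ^ j * e.2 k‖ ≤ 2 * ‖e‖ := by
  refine (norm_add_le _ _).trans ?_
  rw [norm_mul, h2]
  have := mul_le_of_le_one_left (norm_nonneg (e.2 k)) (h2' j)
  linarith [n1 e.1 k, nI e.2 k, norm_fst_le e, norm_snd_le e]

noncomputable def T0 : E →ₗ[ℂ] E where
  toFun e := (⟨fun k => (1 / 2 : ℂ) ^ (2 * k + 1) * e.1 k, (lp.memℓp e.1).mono' (b1 e)⟩,
    ⟨fun k => e.1 k + (1 / 2 : ℂ) ^ (2 * k) * e.2 k,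
      memℓp_infty ⟨2 * ‖e‖, by rintro _ ⟨k, rfl⟩; exact b2 e k _⟩⟩)
  map_add' e f := by
    ext k <;> simp <;> ring
  map_smul' c e := by
    ext k <;> simp <;> ring

lemma T1 (e : E) (k : ℕ) : (T0 e).1 k = (1 / 2 : ℂ) ^ (2 * k + 1) * e.1 k := rfl
lemma T2 (e : E) (k : ℕ) : (T0 e).2 k = e.1 k + (1 / 2 : ℂ) ^ (2 * k) * e.2 k := rfl

noncomputable def T : E →L[ℂ] E := T0.mkContinuous 2 fun e => by
  rw [Prod.norm_def, max_le_iff]
  constructor
  · refine (lp.norm_mono (by simp) (b1 e)).trans ?_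
    linarith [norm_fst_le e, norm_nonneg e]
  · exact lp.norm_le_of_forall_le (by positivity) fun k => b2 e k _

noncomputable def a (e : E) (n : ℕ) : ℂ :=
  if n % 2 = 1 then e.1 (n / 2) else e.1 (n / 2) + (1 / 2 : ℂ) ^ (n + 1) * e.2 (n / 2)

lemma a_le (e : E) (n : ℕ) : ‖a e n‖ ≤ 2 * ‖e‖ := by
  unfold a; split_ifs
  · linarith [n1 e.1 (n / 2), norm_fst_le e, norm_nonneg e]
  · exact b2 e _ _

lemma a_T (e : E) (n : ℕ) : a (T e) n = a e n * (1 / 2) ^ n := by
  show a (T0 e) n = _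
  unfold a
  rw [T1, T2]
  split_ifs with h
  · rw [show 2 * (n / 2) + 1 = n by omega, mul_comm]
  · rw [show 2 * (n / 2) = n by omega]; ring

lemma summ (e : E) {z : ℂ} (hz : ‖z‖ < 1) : Summable fun n => ‖a e n * z ^ n‖ :=
  Summable.of_nonneg_of_le (fun _ => norm_nonneg _) (fun n => by
    rw [norm_mul, norm_pow]; gcongr; exact a_le e n)
    ((summable_geometric_of_lt_one (norm_nonneg _) hz).mul_left (2 * ‖e‖))

noncomputable def iota : E →ₗ[ℂ] (ℂ → ℂ) where
  toFun e z := if ‖z‖ < 1 then ∑' n, a e n * z ^ n else 0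
  map_add' e f := by
    funext z
    simp only [Pi.add_apply]
    split_ifs with h
    · rw [← (summ e h).of_norm.tsum_add (summ f h).of_norm]
      congr 1; funext n
      simp only [a, Prod.fst_add, Prod.snd_add, lp.coeFn_add, Pi.add_apply]
      split_ifs <;> ring
    · simp
  map_smul' c e := by
    funext z
    simp only [Pi.smul_apply, RingHom.id_apply, smul_eq_mul]
    split_ifs with h
    · rw [← tsum_mul_left]
      congr 1; funext n
      simp only [a, Prod.smul_fst, Prod.smul_snd, lp.coeFn_smul, Pi.smul_apply, smul_eq_mul]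
      split_ifs <;> ring
    · simp

lemma iota_apply (e : E) {z : ℂ} (hz : ‖z‖ < 1) : iota e z = ∑' n, a e n * z ^ n := if_pos hz

lemma hasF (e : E) : HasFPowerSeriesOnBall (iota e) (FormalMultilinearSeries.ofScalars ℂ (a e))
    0 1 where
  r_le := by
    simpa using (FormalMultilinearSeries.ofScalars ℂ (a e)).le_radius_of_bound (2 * ‖e‖) (r := 1)
      fun n => by simpa using a_le e n
  r_pos := one_pos
  hasSum := by
    intro y hy
    have hy' : ‖y‖ < 1 := by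
      rw [← ENNReal.ofReal_one, Metric.eball_ofReal] at hy
      simpa using hy
    rw [zero_add, iota_apply e hy']
    simpa [mul_comm] using (summ e hy').of_norm.hasSum

lemma ss : StrictlySingular T := by
  rintro ⟨M, c, -, hM, hc, hb⟩
  have hex : ∀ N : ℕ, ∃ e ∈ M, e ≠ 0 ∧ ∀ k < N, e.1 k = 0 ∧ e.2 k = 0 := by
    intro N
    by_contra hcon
    push Not at hcon
    let L : M →ₗ[ℂ] (Fin N → ℂ × ℂ) :=
      { toFun := fun e k => (e.1.1 k, e.1.2 k)
        map_add' := fun _ _ => rfl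
        map_smul' := fun _ _ => rfl }
    refine hM (FiniteDimensional.of_injective L ((injective_iff_map_eq_zero L).2 fun e he => ?_))
    by_contra hne
    obtain ⟨k, hk, h⟩ := hcon e.1 e.2 (fun h => hne (Subtype.ext h))
    have := congrFun he ⟨k, hk⟩
    exact h (congrArg Prod.fst this) (congrArg Prod.snd this)
  obtain ⟨N, hN⟩ := exists_pow_lt_of_lt_one (half_pos hc) (show (1 / 2 : ℝ) < 1 by norm_num)
  have hp : ∀ k j, N ≤ k → 2 * k ≤ j → (1 / 2 : ℝ) ^ j ≤ c / 2 := fun k j h1 h2 =>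
    (pow_le_pow_of_le_one (by norm_num) (by norm_num) (by omega)).trans hN.le
  have low : ∀ e ∈ M, (∀ k < N, e.1 k = 0 ∧ e.2 k = 0) → ∀ s, 0 ≤ s → (∀ k, ‖e.1 k‖ ≤ s) →
      c / 2 * ‖e‖ ≤ s := by
    intro e he h0 s s0 hs
    have h1 : ‖(T0 e).1‖ ≤ c / 2 * ‖e‖ := by
      have : ‖(T0 e).1‖ ≤ ‖((c / 2 : ℝ) : ℂ) • e.1‖ := lp.norm_mono (by simp) fun k => by
        rw [T1, lp.coeFn_smul, Pi.smul_apply, norm_smul, norm_mul, h2, Complex.norm_real,
          Real.norm_of_nonneg (by linarith)]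
        by_cases hk : k < N
        · simp [(h0 k hk).1]
        · gcongr; exact hp k _ (by omega) (by omega)
      rw [norm_smul, Complex.norm_real, Real.norm_of_nonneg (by linarith)] at this
      exact this.trans (by gcongr; exact norm_fst_le e)
    have h2 : ‖(T0 e).2‖ ≤ s + c / 2 * ‖e‖ := by
      refine lp.norm_le_of_forall_le (by positivity) fun k => ?_
      rw [T2]
      refine (norm_add_le _ _).trans (add_le_add (hs k) ?_)
      rw [norm_mul, h2]
      by_cases hk : k < N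
      · simp only [(h0 k hk).2, norm_zero, mul_zero]; positivity
      · exact mul_le_mul (hp k _ (by omega) le_rfl) ((nI _ _).trans (norm_snd_le e))
          (norm_nonneg _) (by linarith)
    have h3 : ‖T e‖ ≤ s + c / 2 * ‖e‖ := by
      show ‖T0 e‖ ≤ _
      rw [Prod.norm_def]; exact max_le (by linarith) h2
    linarith [hb e he]
  let A : Set ℝ := {r | ∃ e ∈ M, (∀ k < N, e.1 k = 0 ∧ e.2 k = 0) ∧ (∀ k, ‖e.1 k‖ ≤ 1) ∧ r = ‖e.1‖}
  have hA : BddAbove A := ⟨2 / c, by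
    rintro _ ⟨e, he, h0, h1, rfl⟩
    have := low e he h0 1 zero_le_one h1
    rw [le_div_iff₀ hc]
    nlinarith [norm_fst_le e]⟩
  have hAne : A.Nonempty := ⟨_, 0, M.zero_mem, by simp, by simp, rfl⟩
  obtain ⟨_, ⟨e, he, h0, h1, rfl⟩, hr⟩ := exists_lt_of_lt_csSup hAne
    (show sSup A - 1 / 4 < sSup A by linarith)
  obtain ⟨K, hK, hKN⟩ := (((hs1 e.1).tendsto_sum_nat.eventually
    (lt_mem_nhds (show ‖e.1‖ - 1 / 16 < ‖e.1‖ by linarith))).and (eventually_ge_atTop N)).exists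
  obtain ⟨f, hf, hf0, hfK⟩ := hex K
  have hbd : BddAbove (range fun k => ‖f.1 k‖) := ⟨‖f.1‖, by rintro _ ⟨k, rfl⟩; exact n1 _ _⟩
  set s := ⨆ k, ‖f.1 k‖ with hs
  have s1 : ∀ k, ‖f.1 k‖ ≤ s := fun k => le_ciSup hbd k
  have s2 : s ≤ ‖f.1‖ := ciSup_le fun k => n1 _ _
  have s0 : 0 < s := lt_of_lt_of_le (mul_pos (half_pos hc) (norm_pos_iff.2 hf0))
    (low f hf (fun k hk => hfK k (by omega)) s ((norm_nonneg _).trans (s1 0)) s1)
  set g : E := ((1 / (2 * s) : ℝ) : ℂ) • f with hg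
  have g1 : ∀ k, ‖g.1 k‖ ≤ 1 / 2 := fun k => by
    rw [hg, Prod.smul_fst, lp.coeFn_smul, Pi.smul_apply, norm_smul, Complex.norm_real,
      Real.norm_of_nonneg (by positivity), one_div_mul_eq_div, div_le_iff₀ (by positivity)]
    linarith [s1 k]
  have g2 : 1 / 2 ≤ ‖g.1‖ := by
    rw [hg, Prod.smul_fst, norm_smul, Complex.norm_real,
      Real.norm_of_nonneg (by positivity), one_div_mul_eq_div, le_div_iff₀ (by positivity)]
    linarith
  have g0 : ∀ k < K, g.1 k = 0 ∧ g.2 k = 0 := fun k hk => by simp [hg, hfK k hk]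
  have tail : ∀ k, K ≤ k → ‖e.1 k‖ ≤ 1 / 16 := by
    intro k hk
    have := sum_le_hasSum (insert k (Finset.range K)) (fun _ _ => norm_nonneg _) (hs1 e.1)
    rw [Finset.sum_insert (by simp; omega)] at this
    linarith
  have hmem : ‖(e + g).1‖ ∈ A := by
    refine ⟨e + g, M.add_mem he (M.smul_mem _ hf), fun k hk => ?_, fun k => ?_, rfl⟩
    · simp [h0 k hk, g0 k (by omega)]
    · rw [Prod.fst_add, lp.coeFn_add, Pi.add_apply]
      by_cases hk : k < K
      · rw [(g0 k hk).1, add_zero]; exact h1 k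
      · linarith [norm_add_le (e.1 k) (g.1 k), tail k (by omega), g1 k]
  have hle := le_csSup hA hmem
  have hfin : HasSum (fun k => if k ∈ Finset.range K then 2 * ‖e.1 k‖ else 0)
      (2 * ∑ k ∈ Finset.range K, ‖e.1 k‖) := by
    rw [Finset.mul_sum, Finset.sum_congr rfl fun k (hk : k ∈ Finset.range K) =>
      (if_pos (t := 2 * ‖e.1 k‖) (e := 0) hk).symm]
    exact hasSum_sum_of_ne_finset_zero (fun b hb => if_neg hb)
  have := hasSum_le (fun k => ?_) ((hs1 g.1).add hfin) ((hs1 (e + g).1).add (hs1 e.1))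
  · linarith
  · rw [Prod.fst_add, lp.coeFn_add, Pi.add_apply]
    split_ifs with hk
    · rw [(g0 k (Finset.mem_range.1 hk)).1]; simp; linarith
    · have := norm_sub_le (e.1 k + g.1 k) (e.1 k)
      rw [add_sub_cancel_left] at this
      linarith

lemma nc : ¬ IsCompactOperator T := by
  intro h
  obtain ⟨K, hK, hsub⟩ := h.image_closedBall_subset_compact 1
  let u : ℕ → E := fun k => (lp.single 1 k 1, 0)
  have hu : ∀ k, T (u k) ∈ K := fun k => hsub ⟨u k, by
    simp [u, Prod.norm_def, lp.norm_single], rfl⟩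
  obtain ⟨y, -, φ, hφ, hy⟩ := hK.tendsto_subseq hu
  obtain ⟨N, hN⟩ := Metric.cauchySeq_iff'.1 hy.cauchySeq 1 one_pos
  have h1 := hN (N + 1) (by omega)
  rw [dist_eq_norm] at h1
  have h2 := (nI _ (φ (N + 1))).trans (norm_snd_le ((T0 (u (φ (N + 1)))) - T0 (u (φ N))))
  have h3 : φ (N + 1) ≠ φ N := (hφ (by omega)).ne'
  rw [Prod.snd_sub, lp.coeFn_sub, Pi.sub_apply, T2, T2] at h2
  simp [u, lp.single_apply, h3] at h2
  exact absurd h1 (not_lt.2 h2)

theorem result : ∃ (X : Type) (_ : NormedAddCommGroup X) (_ : NormedSpace ℂ X)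
    (_ : CompleteSpace X) (ι : X →ₗ[ℂ] (ℂ → ℂ)) (φ : ℂ → ℂ) (C : X →L[ℂ] X),
    (∀ f, AnalyticOnNhd ℂ (ι f) (ball 0 1)) ∧ (∀ f, (∀ z ∈ ball (0 : ℂ) 1, ι f z = 0) → f = 0) ∧
    (∀ z ∈ ball (0 : ℂ) 1, Continuous fun f => ι f z) ∧
    AnalyticOnNhd ℂ φ (ball 0 1) ∧ MapsTo φ (ball 0 1) (ball 0 1) ∧
    (∀ f, ∀ z ∈ ball (0 : ℂ) 1, ι (C f) z = ι f (φ z)) ∧
    StrictlySingular C ∧ ¬ IsCompactOperator C := by
  refine ⟨E, inferInstance, inferInstance, inferInstance, iota, fun z => z / 2, T, fun f => ?_,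
    fun f hf => ?_, fun z hz => ?_, fun z _ => by fun_prop, fun z hz => ?_, fun f z hz => ?_, ss, nc⟩
  · simpa [← Metric.eball_ofReal] using (hasF f).analyticOnNhd
  · have h1 : HasFPowerSeriesAt 0 (FormalMultilinearSeries.ofScalars ℂ (a f)) (0 : ℂ) :=
      (hasF f).hasFPowerSeriesAt.congr (by
        filter_upwards [ball_mem_nhds (0 : ℂ) one_pos] with z hz using hf z hz)
    have h2 : ∀ n, a f n = 0 := fun n => by
      have := congrFun h1.eq_zero n
      simpa using this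
    have h3 : ∀ k, f.1 k = 0 := fun k => by
      have := h2 (2 * k + 1)
      rwa [a, if_pos (by omega), show (2 * k + 1) / 2 = k by omega] at this
    ext k
    · simp [h3]
    · have := h2 (2 * k)
      rw [a, if_neg (by omega), show (2 * k) / 2 = k by omega, h3] at this
      simpa using this
  · have hz' : ‖z‖ < 1 := by simpa using hz
    refine AddMonoidHomClass.continuous_of_bound ((LinearMap.proj z).comp iota)
      (2 * (1 - ‖z‖)⁻¹) fun f => ?_
    show ‖iota f z‖ ≤ _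
    rw [iota_apply f hz']
    refine tsum_of_norm_bounded (g := fun n => 2 * ‖f‖ * ‖z‖ ^ n) ?_ fun n => ?_
    · rw [mul_right_comm]
      exact (hasSum_geometric_of_lt_one (norm_nonneg _) hz').mul_left (2 * ‖f‖)
    · rw [norm_mul, norm_pow]; gcongr; exact a_le f n
  · simp at hz ⊢; linarith [norm_nonneg z]
  · have hz' : ‖z‖ < 1 := by simpa using hz
    rw [iota_apply _ hz', iota_apply _ (by simp; linarith [norm_nonneg z])]
    congr 1; funext n
    rw [a_T]; ring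

end Pool.Agent.Results.MP_628ecd_an.Exists
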